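import Pool.Agent.Q9.CircCount

open Polynomial Matrix Q9.Circ

namespace Pool.Agent.Results.MP_d6eb29_al.CircFormula

universe u

variable {R : Type u} [CommRing R] [Finite R] [IsLocalRing R] (p : ℕ) [hp : Fact p.Prime]
  [CharP (IsLocalRing.ResidueField R) p]

theorem nilpotent_of_residue (x : R) (hx : IsLocalRing.residue R x = 0) : IsNilpotent x := by
  rw [IsLocalRing.residue_eq_zero_iff] at hx
  obtain ⟨m, hm⟩ := IsArtinianRing.isNilpotent_jacobson_bot (R := R)
  refine ⟨m, ?_⟩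
  rw [← IsLocalRing.jacobson_eq_maximalIdeal ⊥ bot_ne_top] at hx
  have h2 := Ideal.pow_mem_pow hx m
  rw [hm] at h2
  exact h2

theorem card_units_S (n' k : ℕ) [NeZero n'] (hn' : ¬ p ∣ n') :
    Nat.card (S R (n' * p ^ k))ˣ * Nat.card (IsLocalRing.ResidueField R) ^ n' =
      Nat.card R ^ (n' * p ^ k) * ∏ d ∈ n'.divisors,
        (Nat.card (IsLocalRing.ResidueField R) ^
          orderOf ((Nat.card (IsLocalRing.ResidueField R) : ℕ) : ZMod d) - 1) ^
        (d.totient / orderOf ((Nat.card (IsLocalRing.ResidueField R) : ℕ) : ZMod d)) := by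
  have hfin : Finite (IsLocalRing.ResidueField R) :=
    Finite.of_surjective _ IsLocalRing.residue_surjective
  have h0 : 0 < n' := Nat.pos_of_ne_zero (NeZero.ne n')
  have hXn : (X ^ (n' * p ^ k) - 1 : (IsLocalRing.ResidueField R)[X]) =
      (X ^ n' - 1) ^ p ^ k := by
    rw [sub_pow_char_pow, one_pow, ← pow_mul]
  have hmapX : (X ^ (n' * p ^ k) - 1 : R[X]).map (IsLocalRing.residue R) =
      X ^ (n' * p ^ k) - 1 := by
    rw [Polynomial.map_sub, Polynomial.map_pow, map_X, Polynomial.map_one]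
  let ψ : S R (n' * p ^ k) →+*
      ((IsLocalRing.ResidueField R)[X] ⧸ Ideal.span {(X ^ n' - 1 : (IsLocalRing.ResidueField R)[X])}) :=
    Ideal.Quotient.lift (K R (n' * p ^ k))
      ((Ideal.Quotient.mk _).comp (mapRingHom (IsLocalRing.residue R))) (by
        intro f hf
        obtain ⟨g, rfl⟩ := K_le R _ f hf
        rw [RingHom.comp_apply, Ideal.Quotient.eq_zero_iff_mem, Ideal.mem_span_singleton,
          coe_mapRingHom, Polynomial.map_mul, hmapX, hXn]
        exact Dvd.dvd.mul_right (dvd_pow_self _ (pow_pos hp.out.pos k).ne') _)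
  have hψ : ∀ f : R[X], ψ (Ideal.Quotient.mk _ f) =
    Ideal.Quotient.mk _ (f.map (IsLocalRing.residue R)) := fun f => rfl
  have hsurj : Function.Surjective ψ := by
    intro y
    obtain ⟨g, rfl⟩ := Ideal.Quotient.mk_surjective y
    obtain ⟨f, rfl⟩ := map_surjective _ (IsLocalRing.residue_surjective (R := R)) g
    exact ⟨Ideal.Quotient.mk _ f, hψ f⟩
  have hnil : ∀ x, ψ x = 0 → IsNilpotent x := by
    intro x hx
    obtain ⟨f, rfl⟩ := Ideal.Quotient.mk_surjective x
    rw [hψ, Ideal.Quotient.eq_zero_iff_mem, Ideal.mem_span_singleton] at hx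
    obtain ⟨g', hg'⟩ := hx
    obtain ⟨g, rfl⟩ := map_surjective _ (IsLocalRing.residue_surjective (R := R)) g'
    have h1 : IsNilpotent (f ^ p ^ k - (X ^ (n' * p ^ k) - 1) * g ^ p ^ k) := by
      rw [Polynomial.isNilpotent_iff]
      intro i
      apply nilpotent_of_residue
      rw [← coeff_map, Polynomial.map_sub, Polynomial.map_mul, hmapX, Polynomial.map_pow,
        Polynomial.map_pow, hg', mul_pow, hXn, sub_self, coeff_zero]
    have h2 := h1.map (Ideal.Quotient.mk (K R (n' * p ^ k)))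
    rw [map_sub, (Ideal.Quotient.eq_zero_iff_mem).2 (mem_K R _ _), sub_zero, map_pow] at h2
    obtain ⟨m, hm⟩ := h2
    exact ⟨p ^ k * m, by rw [pow_mul, hm]⟩
  have h1 := card_units_lift ψ hsurj hnil
  have h2 : (X ^ n' - 1 : (IsLocalRing.ResidueField R)[X]).natDegree = n' := by
    have := natDegree_X_pow_sub_C (R := IsLocalRing.ResidueField R) (n := n') (r := 1)
    rwa [C_1] at this
  have h3 : Nat.card ((IsLocalRing.ResidueField R)[X] ⧸
      Ideal.span {(X ^ n' - 1 : (IsLocalRing.ResidueField R)[X])}) =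
      Nat.card (IsLocalRing.ResidueField R) ^ n' := by
    have h4 : Module.finrank (IsLocalRing.ResidueField R) ((IsLocalRing.ResidueField R)[X] ⧸
      Ideal.span {(X ^ n' - 1 : (IsLocalRing.ResidueField R)[X])}) = n' := by
      rw [finrank_quotient_span_eq_natDegree, h2]
    have h5 : Module.Finite (IsLocalRing.ResidueField R) ((IsLocalRing.ResidueField R)[X] ⧸
      Ideal.span {(X ^ n' - 1 : (IsLocalRing.ResidueField R)[X])}) :=
      Module.finite_of_finrank_pos (by rw [h4]; exact h0)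
    rw [Module.natCard_eq_pow_finrank (K := IsLocalRing.ResidueField R), h4]
  rw [h3, card_S] at h1
  rw [h1]
  congr 1
  exact U_X_pow_sub_one p n' hn'

theorem prod_eq (q n' : ℕ) (hq : 1 < q) (hn0 : 0 < n') (hcop : Nat.Coprime q n') :
    ((∏ d ∈ n'.divisors, (q ^ orderOf ((q : ℕ) : ZMod d) - 1) ^
      (d.totient / orderOf ((q : ℕ) : ZMod d)) : ℕ) : ℚ) =
    (q : ℚ) ^ n' * ∏ d ∈ n'.divisors, (1 - (q : ℚ)⁻¹ ^ orderOf ((q : ℕ) : ZMod d)) ^
      (d.totient / orderOf ((q : ℕ) : ZMod d)) := by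
  have hqn : (q : ℚ) ^ n' = ∏ d ∈ n'.divisors, (q : ℚ) ^ d.totient := by
    rw [Finset.prod_pow_eq_pow_sum, Nat.sum_totient]
  rw [hqn, ← Finset.prod_mul_distrib, Nat.cast_prod]
  refine Finset.prod_congr rfl fun d hd => ?_
  have hdn := Nat.dvd_of_mem_divisors hd
  have hd0 : 0 < d := Nat.pos_of_mem_divisors hd
  haveI : NeZero d := ⟨hd0.ne'⟩
  have hcd : Nat.Coprime q d := hcop.coprime_dvd_right hdn
  have hord : orderOf ((q : ℕ) : ZMod d) ∣ d.totient := by
    have h1 : orderOf ((q : ℕ) : ZMod d) = orderOf (ZMod.unitOfCoprime q hcd) := by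
      rw [← orderOf_units, ZMod.coe_unitOfCoprime]
    rw [h1, ← ZMod.card_units_eq_totient]
    exact orderOf_dvd_card
  set o := orderOf ((q : ℕ) : ZMod d)
  obtain ⟨m, hm⟩ := hord
  have ho : 0 < o := by
    rcases Nat.eq_zero_or_pos o with h | h
    · rw [h, zero_mul] at hm
      exact absurd hm (Nat.totient_pos.2 hd0).ne'
    · exact h
  rw [hm, Nat.mul_div_cancel_left _ ho, pow_mul, ← mul_pow, Nat.cast_pow,
    Nat.cast_sub (Nat.one_le_pow _ _ (by omega)), Nat.cast_pow, Nat.cast_one]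
  congr 1
  have hq0 : (q : ℚ) ≠ 0 := by
    have : 0 < q := by omega
    exact_mod_cast this.ne'
  rw [mul_sub, mul_one, inv_pow, mul_inv_cancel₀ (pow_ne_zero _ hq0)]

/-- `a = Σ_{j ≤ k} p ^ j s_j ^ (p ^ (k - j))` for some elements `s_j` of `R`. -/
def IsGhost (p k : ℕ) (a : R) : Prop :=
  ∃ s : ℕ → R, a = ∑ j ∈ Finset.range (k + 1), (p : R) ^ j * s j ^ p ^ (k - j)

open scoped Classical in
theorem formula (k n' n : ℕ) [NeZero n] (hn' : ¬ p ∣ n') (hn : n = n' * p ^ k) (a : R)
    (ha : IsUnit a) (q : ℕ) (hq : q = Nat.card (IsLocalRing.ResidueField R)) :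
    (Nat.card {v : ZMod n → R // (Matrix.of fun i j => v (j - i)).det = a} : ℚ) =
      if IsGhost p k a then
        (Nat.card R : ℚ) ^ n * (∏ d ∈ n'.divisors,
          (1 - (q : ℚ)⁻¹ ^ orderOf (q : ZMod d)) ^ (d.totient / orderOf (q : ZMod d))) /
          (Nat.card {b : R // IsUnit b ∧ IsGhost p k b} : ℚ)
      else 0 := by
  subst hn
  haveI : NeZero n' := ⟨by rintro rfl; exact hn' (dvd_zero _)⟩
  have hfin : Finite (IsLocalRing.ResidueField R) :=
    Finite.of_surjective _ IsLocalRing.residue_surjective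
  have h0 : 0 < n' := Nat.pos_of_ne_zero (NeZero.ne n')
  have hfib := card_fibre R (n' * p ^ k) a ha
  have hiff : ∀ b : R, IsUnit b → ((∃ f : R[X], NR (n' * p ^ k) f = b) ↔ IsGhost p k b) :=
    fun b hb => norm_iff p n' k hn' b hb
  have hset : Nat.card {b : R // IsUnit b ∧ ∃ f : R[X], NR (n' * p ^ k) f = b} =
      Nat.card {b : R // IsUnit b ∧ IsGhost p k b} := by
    congr 1
    apply congrArg
    ext b
    constructor
    · rintro ⟨h1, h2⟩
      exact ⟨h1, (hiff b h1).1 h2⟩
    · rintro ⟨h1, h2⟩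
      exact ⟨h1, (hiff b h1).2 h2⟩
  have hG0 : (Nat.card {b : R // IsUnit b ∧ IsGhost p k b} : ℚ) ≠ 0 := by
    haveI : Nonempty {b : R // IsUnit b ∧ IsGhost p k b} := by
      refine ⟨1, isUnit_one, ?_⟩
      rw [← hiff 1 isUnit_one]
      exact ⟨1, map_one _⟩
    exact_mod_cast (Nat.card_pos).ne'
  rw [hset] at hfib
  by_cases h : IsGhost p k a
  · rw [if_pos h, eq_div_iff hG0]
    rw [if_pos ((hiff a ha).2 h)] at hfib
    have h1 := card_units_S (R := R) p n' k hn'
    rw [← hq] at h1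
    have hq1 : 1 < q := by rw [hq]; exact Finite.one_lt_card
    have hcop : Nat.Coprime q n' := by
      letI := Fintype.ofFinite (IsLocalRing.ResidueField R)
      obtain ⟨m, -, hm⟩ := FiniteField.card (IsLocalRing.ResidueField R) p
      rw [hq, Nat.card_eq_fintype_card, hm]
      exact Nat.Coprime.pow_left _ ((Nat.Prime.coprime_iff_not_dvd hp.out).2 hn')
    have h2 := congrArg (Nat.cast (R := ℚ)) h1
    rw [Nat.cast_mul, Nat.cast_mul, prod_eq q n' hq1 h0 hcop, Nat.cast_pow, Nat.cast_pow,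
      mul_left_comm, mul_comm] at h2
    have hq0 : (q : ℚ) ^ n' ≠ 0 := pow_ne_zero _ (by
      have : 0 < q := by omega
      exact_mod_cast this.ne')
    have h3 := mul_left_cancel₀ hq0 h2
    rw [← h3, ← hfib, Nat.cast_mul]
  · rw [if_neg h]
    rw [if_neg (fun h' => h ((hiff a ha).1 h'))] at hfib
    have h1 := congrArg (Nat.cast (R := ℚ)) hfib
    rw [Nat.cast_mul, Nat.cast_zero] at h1
    exact (mul_eq_zero.1 h1).resolve_right hG0

theorem ghost_of_unramified (hmax : IsLocalRing.maximalIdeal R = Ideal.span {(p : R)}) (k : ℕ) :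
    ∀ b : R, IsGhost p k b := by
  have hfin : Finite (IsLocalRing.ResidueField R) :=
    Finite.of_surjective _ IsLocalRing.residue_surjective
  induction k with
  | zero => exact fun b => ⟨fun _ => b, by simp⟩
  | succ k ih =>
    intro b
    have hinj : Function.Injective fun x : IsLocalRing.ResidueField R => x ^ p ^ (k + 1) :=
      iterateFrobenius_inj (IsLocalRing.ResidueField R) p (k + 1)
    obtain ⟨y, hy⟩ := Finite.surjective_of_injective hinj (IsLocalRing.residue R b)
    obtain ⟨t, rfl⟩ := IsLocalRing.residue_surjective y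
    have h1 : b - t ^ p ^ (k + 1) ∈ IsLocalRing.maximalIdeal R := by
      rw [← IsLocalRing.residue_eq_zero_iff, map_sub, map_pow]
      exact sub_eq_zero.2 hy.symm
    rw [hmax, Ideal.mem_span_singleton] at h1
    obtain ⟨c, hc⟩ := h1
    obtain ⟨s, hs⟩ := ih c
    refine ⟨fun j => if j = 0 then t else s (j - 1), ?_⟩
    rw [Finset.sum_range_succ']
    dsimp only
    rw [if_pos rfl, pow_zero, one_mul, Nat.sub_zero]
    rw [sub_eq_iff_eq_add] at hc
    rw [hc, hs, Finset.mul_sum]
    congr 1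
    refine Finset.sum_congr rfl fun j _ => ?_
    rw [if_neg (Nat.succ_ne_zero j), Nat.add_sub_cancel, Nat.add_sub_add_right, pow_succ']
    ring

omit [Finite R] [IsLocalRing R] [CharP (IsLocalRing.ResidueField R) p] in
theorem ghost_of_char (h0 : (p : R) = 0) (k : ℕ) (b : R) :
    IsGhost p k b ↔ ∃ s : R, b = s ^ p ^ k := by
  constructor
  · rintro ⟨s, rfl⟩
    refine ⟨s 0, ?_⟩
    rw [Finset.sum_range_succ', Finset.sum_eq_zero, zero_add, pow_zero, one_mul, Nat.sub_zero]
    intro j _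
    rw [h0, zero_pow (Nat.succ_ne_zero j), zero_mul]
  · rintro ⟨s, rfl⟩
    refine ⟨fun _ => s, ?_⟩
    rw [Finset.sum_range_succ', Finset.sum_eq_zero, zero_add, pow_zero, one_mul, Nat.sub_zero]
    intro j _
    rw [h0, zero_pow (Nat.succ_ne_zero j), zero_mul]

open scoped Classical in
theorem result {R : Type u} [CommRing R] [Finite R] [IsLocalRing R] (p : ℕ) [Fact p.Prime]
    [CharP (IsLocalRing.ResidueField R) p] (q : ℕ)
    (hq : q = Nat.card (IsLocalRing.ResidueField R)) (k n' n : ℕ) [NeZero n] (hn' : ¬ p ∣ n')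
    (hn : n = n' * p ^ k) :
    (∀ a : R, IsUnit a →
      (Nat.card {v : ZMod n → R // (Matrix.of fun i j => v (j - i)).det = a} : ℚ) =
        if IsGhost p k a then
          (Nat.card R : ℚ) ^ n * (∏ d ∈ n'.divisors,
            (1 - (q : ℚ)⁻¹ ^ orderOf (q : ZMod d)) ^ (d.totient / orderOf (q : ZMod d))) /
            (Nat.card {b : R // IsUnit b ∧ IsGhost p k b} : ℚ)
        else 0) ∧
    (IsLocalRing.maximalIdeal R = Ideal.span {(p : R)} → ∀ b : R, IsGhost p k b) ∧
    ((p : R) = 0 → ∀ b : R, IsGhost p k b ↔ ∃ s : R, b = s ^ p ^ k) :=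
  ⟨fun a ha => formula p k n' n hn' hn a ha q hq, fun h => ghost_of_unramified p h k,
    fun h => ghost_of_char p h k⟩

end Pool.Agent.Results.MP_d6eb29_al.CircFormula
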